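import Pool.Agent.P.MP_5517c4_pr.Cca.A33.Gd
import Pool.Agent.P.MP_5517c4_pr.Cca.A34.Gd
import Pool.Agent.P.MP_5517c4_pr.Cca.A45.Gd
import Pool.Agent.P.MP_5517c4_pr.Cca.A46.Gd

set_option autoImplicit false

namespace Pool.Agent.Results.MP_5517c4_pr.CcaFixates

open MeasureTheory ProbabilityTheory Filter Pool.Agent.P.MP_5517c4_pr

/-- With threshold 2, the cyclic cellular automaton with `κ` colours on the `(d+1)`-regular tree
fixates almost surely for `(d, κ) = (3, 3), (3, 4), (4, 5), (4, 6)`. -/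
theorem result (d κ : ℕ) (h : (d, κ) ∈ ({(3, 3), (3, 4), (4, 5), (4, 6)} : Set (ℕ × ℕ)))
    (V : Type) (G : SimpleGraph V) (hG : G.IsTree)
    (hreg : ∀ v, (G.neighborSet v).ncard = d + 1) :
    ∀ᵐ ξ ∂(Measure.infinitePi fun _ : V => uniformOn (Set.univ : Set (ZMod κ))),
      ∀ v, ∃ c, ∀ᶠ t in atTop, (ccaStep G κ 2)^[t] ξ v = c := by
  rcases h with h | h | h | h <;> obtain ⟨rfl, rfl⟩ := Prod.mk.inj h
  · exact @Cca.cca_fix _ ⟨by decide⟩ _ _ Cca.A33.gd (by decide) (by decide) _ _ hG hreg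
  · exact @Cca.cca_fix _ ⟨by decide⟩ _ _ Cca.A34.gd (by decide) (by decide) _ _ hG hreg
  · exact @Cca.cca_fix _ ⟨by decide⟩ _ _ Cca.A45.gd (by decide) (by decide) _ _ hG hreg
  · exact @Cca.cca_fix _ ⟨by decide⟩ _ _ Cca.A46.gd (by decide) (by decide) _ _ hG hreg

end Pool.Agent.Results.MP_5517c4_pr.CcaFixates
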