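import Pool.Agent.P.MP_5517c4_pr.Ghm

set_option autoImplicit false

namespace Pool.Agent.Results.MP_5517c4_pr.GhmFixates

open MeasureTheory ProbabilityTheory Filter Pool.Agent.P.MP_5517c4_pr

/-- With threshold 2, the Greenberg-Hastings model on the `(d+1)`-regular tree, `d = 3, 4`,
fixates almost surely for every number `κ ≥ 3` of colours. -/
theorem result (d κ : ℕ) (hd : d = 3 ∨ d = 4) (hκ : 3 ≤ κ) (V : Type) (G : SimpleGraph V)
    (hG : G.IsTree) (hreg : ∀ v, (G.neighborSet v).ncard = d + 1) :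
    ∀ᵐ γ ∂(Measure.infinitePi fun _ : V => uniformOn (Set.univ : Set (ZMod κ))),
      ∀ v, ∀ᶠ t in atTop, (ghmStep G κ 2)^[t] γ v = 0 :=
  haveI : NeZero κ := ⟨by omega⟩
  ghm_fix hd hκ hG hreg

end Pool.Agent.Results.MP_5517c4_pr.GhmFixates
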